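import Mathlib
import Pool.Agent.R352.E.Cnt

set_option autoImplicit false

/-!
# Exponentially weighted logarithms (helper116)
-/

open Filter Topology Set MeasureTheory

namespace Pool.Agent.Helper116_WL

open Pool.Agent.R352.E

/-- the weighted logarithm and the values of the E-function -/
lemma wl_eq {a x : ℝ} (ha : 0 < a) (hx : 0 < x) :
    ∫ t in x..(a * x), Real.exp (-t) / t = Real.log a - (EE 1 (a * x) - EE 1 x) := by
  have hax : 0 < a * x := mul_pos ha hx
  have hpos : ∀ t ∈ uIcc x (a * x), 0 < t := by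
    intro t ht
    rcases le_total x (a * x) with h | h
    · rw [uIcc_of_le h] at ht; exact hx.trans_le ht.1
    · rw [uIcc_of_ge h] at ht; exact hax.trans_le ht.1
  have hd : ∀ t ∈ uIcc x (a * x), HasDerivAt (fun t => Real.log t - EE 1 t) (Real.exp (-t) / t) t := by
    intro t ht
    have h0 := hpos t ht
    have h1 := (Real.hasDerivAt_log h0.ne').sub (EE_deriv' 0 h0)
    refine h1.congr_deriv ?_
    rw [EE_zero_left]
    field_simp
    ring
  have hint : IntervalIntegrable (fun t => Real.exp (-t) / t) volume x (a * x) := by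
    refine ContinuousOn.intervalIntegrable ?_
    refine ContinuousOn.div (by fun_prop) continuousOn_id fun t ht => (hpos t ht).ne'
  rw [intervalIntegral.integral_eq_sub_of_hasDerivAt hd hint, Real.log_mul ha.ne' hx.ne']
  ring

/-- the limit at zero -/
lemma wl_tendsto {a : ℝ} (ha : 0 < a) :
    Tendsto (fun x : ℝ => ∫ t in x..(a * x), Real.exp (-t) / t) (𝓝[>] 0) (𝓝 (Real.log a)) := by
  have h1 : Tendsto (EE 1) (𝓝[>] 0) (𝓝 0) := EE_tendsto 0
  have h2 : Tendsto (fun x : ℝ => a * x) (𝓝[>] 0) (𝓝[>] 0) := by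
    refine tendsto_nhdsWithin_iff.2 ⟨?_, ?_⟩
    · have : Tendsto (fun x : ℝ => a * x) (𝓝 0) (𝓝 (a * 0)) := tendsto_id.const_mul a
      rw [mul_zero] at this
      exact this.mono_left nhdsWithin_le_nhds
    · filter_upwards [self_mem_nhdsWithin] with x hx
      exact mul_pos ha hx
  have h3 := (h1.comp h2).sub h1
  have h4 := (tendsto_const_nhds (x := Real.log a) (f := 𝓝[>] (0 : ℝ))).sub h3
  rw [sub_zero, sub_zero] at h4
  refine h4.congr' ?_
  filter_upwards [self_mem_nhdsWithin] with x hx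
  exact (wl_eq ha hx).symm

/-- the offsets are algebraically independent, together with `e` -/
lemma off_indep {n : ℕ} (a : Fin n → ℚ) (ha : ∀ i, 0 < a i) (S : Finset ℚ) (hS : ∀ x ∈ S, 0 < x)
    (hinj : ∀ p q : Option (Fin n) × S, p.1.elim 1 a * (p.2 : ℚ) = q.1.elim 1 a * (q.2 : ℚ) → p = q) :
    AlgebraicIndependent ℚ (fun o : Option (Fin n × S) => o.elim (Real.exp 1) (fun p =>
      EE 1 ((a p.1 : ℝ) * ((p.2 : ℚ) : ℝ)) - EE 1 (((p.2 : ℚ) : ℝ)))) := by
  classical
  let pt : Option (Fin n) × S → ℚ := fun p => p.1.elim 1 a * (p.2 : ℚ)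
  have hpt : ∀ p, 0 < pt p := by
    rintro ⟨_ | i, x⟩
    · simpa [pt] using hS x x.2
    · exact mul_pos (ha i) (hS x x.2)
  have h := EE_alg_Q 1 pt (fun p q h => hinj p q h) hpt
  let W : Option (Option (Fin n) × S) → ℝ := fun o => o.elim (Real.exp 1) (fun p =>
    p.1.elim (EE 1 ((p.2 : ℚ) : ℝ)) (fun i => EE 1 ((a i : ℝ) * ((p.2 : ℚ) : ℝ)) - EE 1 ((p.2 : ℚ) : ℝ)))
  have hW : AlgebraicIndependent ℚ W := by
    refine indep_of_span h (fun o => ?_) (by simp)
    cases o with
    | none => exact subset_clF _ ⟨none, rfl⟩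
    | some q =>
      obtain ⟨k, o, x⟩ := q
      have hk : k = 0 := Subsingleton.elim _ _
      subst hk
      have h1 : EE 1 ((x : ℚ) : ℝ) ∈ clF (range W) := subset_clF _ ⟨some (none, x), rfl⟩
      cases o with
      | none =>
        simpa [pt] using h1
      | some i =>
        have h2 : EE 1 ((a i : ℝ) * ((x : ℚ) : ℝ)) - EE 1 ((x : ℚ) : ℝ) ∈ clF (range W) :=
          subset_clF _ ⟨some (some i, x), rfl⟩
        have h3 := (clF (range W)).add_mem h2 h1
        rw [sub_add_cancel] at h3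
        simpa [pt] using h3
  let f : Option (Fin n × S) → Option (Option (Fin n) × S) := Option.map fun p => (some p.1, p.2)
  have hf : Function.Injective f := by
    refine Option.map_injective ?_
    intro p q h
    simp only [Prod.mk.injEq, Option.some.injEq] at h
    exact Prod.ext h.1 h.2
  have h2 := hW.comp f hf
  convert h2 using 1
  ext o
  cases o <;> rfl

/-- subadditivity of the rank, relative to a common element -/
lemma rank_union {κ : Type*} (e : ℝ) (he : 1 ≤ Mt.eRk {e}) (s : Finset κ) (A : κ → Set ℝ) (hA : ∀ k, e ∈ A k) :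
    Mt.eRk ({e} ∪ ⋃ k ∈ s, A k) + (s.card : ℕ∞) ≤ 1 + ∑ k ∈ s, Mt.eRk (A k) := by
  classical
  induction s using Finset.induction_on with
  | empty =>
    simp only [Finset.notMem_empty, iUnion_of_empty, iUnion_empty, union_empty, Finset.card_empty, Nat.cast_zero,
      add_zero, Finset.sum_empty]
    exact (Matroid.eRk_le_encard _ _).trans (by simp)
  | insert k s hk ih =>
    rw [Finset.sum_insert hk, Finset.card_insert_of_notMem hk]
    have e1 : ({e} ∪ ⋃ j ∈ insert k s, A j : Set ℝ) = ({e} ∪ ⋃ j ∈ s, A j) ∪ A k := by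
      rw [Finset.set_biUnion_insert]
      rw [union_comm (A k), union_assoc]
    have h1 := Mt.eRk_submod ({e} ∪ ⋃ j ∈ s, A j) (A k)
    have h2 : 1 ≤ Mt.eRk (({e} ∪ ⋃ j ∈ s, A j) ∩ A k) :=
      he.trans (Mt.eRk_mono (by
        rintro z rfl
        exact ⟨Or.inl rfl, hA k⟩))
    rw [e1]
    push_cast
    calc Mt.eRk (({e} ∪ ⋃ j ∈ s, A j) ∪ A k) + ((s.card : ℕ∞) + 1)
        = (1 + Mt.eRk (({e} ∪ ⋃ j ∈ s, A j) ∪ A k)) + (s.card : ℕ∞) := by ring
      _ ≤ (Mt.eRk (({e} ∪ ⋃ j ∈ s, A j) ∩ A k) + Mt.eRk (({e} ∪ ⋃ j ∈ s, A j) ∪ A k)) + (s.card : ℕ∞) := by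
          gcongr
      _ ≤ (Mt.eRk ({e} ∪ ⋃ j ∈ s, A j) + Mt.eRk (A k)) + (s.card : ℕ∞) := by gcongr
      _ = (Mt.eRk ({e} ∪ ⋃ j ∈ s, A j) + (s.card : ℕ∞)) + Mt.eRk (A k) := by ring
      _ ≤ (1 + ∑ j ∈ s, Mt.eRk (A j)) + Mt.eRk (A k) := by gcongr
      _ = 1 + (Mt.eRk (A k) + ∑ j ∈ s, Mt.eRk (A j)) := by ring

/-- rank and transcendence degree of a finite family -/
lemma rank_fin {n : ℕ} (y : Fin n → ℝ) : ∃ r : ℕ, Mt.eRk (range y) = r ∧ r ≤ n ∧
    (r : Cardinal) ≤ Algebra.trdeg ℚ (IntermediateField.adjoin ℚ (range y)) ∧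
    (n ≤ r → AlgebraicIndependent ℚ y) := by
  obtain ⟨I, hI⟩ := Mt.exists_isBasis (range y) (subset_univ _)
  have hfin : I.Finite := (finite_range y).subset hI.subset
  have := hfin.fintype
  have hind : AlgebraicIndependent ℚ (fun i : I => (i : ℝ)) := hI.indep
  have hcard : Mt.eRk (range y) = (Fintype.card I : ℕ∞) := by
    rw [← hI.encard_eq_eRk, ← ENat.card_eq_coe_fintype_card, Set.encard]
  have hsub : ∀ i : I, (i : ℝ) ∈ clF (range y) := fun i => subset_clF _ (hI.subset i.2)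
  refine ⟨Fintype.card I, hcard, ?_, trdeg_ge hind hsub, fun hn => ?_⟩
  · have := card_le_card hind hsub
    simpa using this
  · exact indep_of_span hind hsub (by simpa using hn)

end Pool.Agent.Helper116_WL
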