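import Mathlib
import Pool.Agent.Helper116_EM.Zeta
import Pool.Agent.Helper116_WL.Basic

set_option autoImplicit false

/-!
# `log a` and the weighted logarithms: joint measures (helper116)
-/

open Finset

namespace Pool.Agent.Helper116_WL

open Pool.Agent.R352.T (EA)
open Pool.Agent.R352.E (EE EE_alg_Q clF subset_clF indep_of_span)
open Pool.Agent.Helper116_EM (MeasI names_indep meas_gen names_e EA_zero_eq)

/-- the offsets -/
noncomputable def offW (a : ℚ) : Option {x : ℚ // 0 < x} → ℝ := fun z => z.elim 0 (fun x =>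
  EE 1 ((a : ℝ) * ((x : ℚ) : ℝ)) - EE 1 ((x : ℚ) : ℝ))

/-- the independence for a finite set of points -/
lemma offW_fin {a : ℚ} (ha : 1 < a) (F : Finset ℚ) (hF : ∀ x ∈ F, 0 < x) :
    AlgebraicIndependent ℚ (fun o : Option F => o.elim (Real.exp 1) (fun x =>
      EE 1 ((a : ℝ) * ((x : ℚ) : ℝ)) - EE 1 ((x : ℚ) : ℝ))) := by
  classical
  have ha0 : 0 < a := one_pos.trans ha
  set G : Finset ℚ := F.image (fun x => a * x) with hG
  have hGcard : G.card = F.card := Finset.card_image_of_injective _ (mul_right_injective₀ ha0.ne')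
  set V : Finset ℚ := F ∪ G with hV
  have hGV : G ⊆ V := Finset.subset_union_right
  have hFV : F ⊆ V := Finset.subset_union_left
  have hVpos : ∀ v ∈ V, 0 < v := by
    intro v hv
    rcases Finset.mem_union.1 hv with h | h
    · exact hF v h
    · obtain ⟨x, hx, rfl⟩ := Finset.mem_image.1 h
      exact mul_pos ha0 (hF x hx)
  have h := EE_alg_Q 1 (ι := V) (fun v => (v : ℚ)) Subtype.val_injective (fun v => hVpos v v.2)
  let W : Option (F ⊕ (V \ G : Finset ℚ)) → ℝ := fun o => o.elim (Real.exp 1) (fun p =>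
    Sum.elim (fun x : F => EE 1 ((a : ℝ) * ((x : ℚ) : ℝ)) - EE 1 ((x : ℚ) : ℝ))
      (fun v : (V \ G : Finset ℚ) => EE 1 ((v : ℚ) : ℝ)) p)
  have hmem : ∀ v : V, EE 1 (((v : ℚ)) : ℝ) ∈ clF (Set.range W) := by
    intro v
    induction v using WellFoundedLT.induction with
    | _ v ih =>
      by_cases hvG : (v : ℚ) ∈ G
      · obtain ⟨x, hx, hxv⟩ := Finset.mem_image.1 hvG
        have hx0 := hF x hx
        have hlt : (⟨x, hFV hx⟩ : V) < v := by
          show x < (v : ℚ)
          rw [← hxv]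
          nlinarith
        have h1 := ih _ hlt
        have h2 : EE 1 ((a : ℝ) * (x : ℝ)) - EE 1 (x : ℝ) ∈ clF (Set.range W) :=
          subset_clF _ ⟨some (Sum.inl ⟨x, hx⟩), rfl⟩
        have h3 := (clF (Set.range W)).add_mem h2 h1
        rw [sub_add_cancel] at h3
        rw [← hxv]
        push_cast
        exact h3
      · exact subset_clF _ ⟨some (Sum.inr ⟨v, Finset.mem_sdiff.2 ⟨v.2, hvG⟩⟩), rfl⟩
  have hW : AlgebraicIndependent ℚ W := by
    refine indep_of_span h (fun o => ?_) ?_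
    · cases o with
      | none => exact subset_clF _ ⟨none, rfl⟩
      | some q =>
        obtain ⟨k, v⟩ := q
        have hk : k = 0 := Subsingleton.elim _ _
        subst hk
        simpa using hmem v
    · have h1 : (V \ G).card + G.card = V.card := Finset.card_sdiff_add_card_eq_card hGV
      simp only [Fintype.card_option, Fintype.card_sum, Fintype.card_coe, Fintype.card_prod, Fintype.card_fin]
      omega
  have h2 := hW.comp (Option.map Sum.inl : Option F → _) (Option.map_injective Sum.inl_injective)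
  convert h2 using 1
  ext o
  cases o <;> rfl

lemma offW_indep {a : ℚ} (ha : 1 < a) : AlgebraicIndependent ℚ
    (fun z : Option {b : Option {x : ℚ // 0 < x} // b ≠ none} => z.elim (Real.exp 1) (fun b => offW a b)) := by
  classical
  refine algebraicIndependent_of_finite_type fun t ht => ?_
  let F : Finset ℚ := ht.toFinset.biUnion fun z => z.elim ∅ (fun b => b.1.elim ∅ (fun x => {x.1}))
  have hF : ∀ (x : {x : ℚ // 0 < x}) (hx : some x ≠ none), some ⟨some x, hx⟩ ∈ t → x.1 ∈ F := by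
    intro x hx h
    exact Finset.mem_biUnion.2 ⟨_, ht.mem_toFinset.2 h, by simp⟩
  have hFpos : ∀ x ∈ F, 0 < x := by
    intro x hx
    obtain ⟨z, -, h2⟩ := Finset.mem_biUnion.1 hx
    rcases z with _ | ⟨_ | y, hy⟩
    · simp at h2
    · exact absurd rfl hy
    · simp only [Option.elim, Finset.mem_singleton] at h2
      rw [h2]; exact y.2
  have h := offW_fin ha F hFpos
  let f : t → Option F := fun z =>
    match z with
    | ⟨none, _⟩ => none
    | ⟨some ⟨none, h⟩, _⟩ => absurd rfl h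
    | ⟨some ⟨some x, hx⟩, hz⟩ => some ⟨x.1, hF x hx hz⟩
  have hf : Function.Injective f := by
    rintro ⟨z, hz⟩ ⟨z', hz'⟩ h
    rcases z with _ | ⟨_ | x, hx⟩ <;> rcases z' with _ | ⟨_ | x', hx'⟩
    · rfl
    · exact absurd rfl hx'
    · exact absurd h (by simp [f])
    · exact absurd rfl hx
    · exact absurd rfl hx
    · exact absurd rfl hx
    · exact absurd h (by simp [f])
    · exact absurd rfl hx'
    · simp only [f, Option.some.injEq, Subtype.mk.injEq] at h
      have h2 : x = x' := Subtype.ext h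
      subst h2
      rfl
  have h2 := h.comp f hf
  convert h2 using 1
  funext z
  rcases z with ⟨_ | ⟨_ | x, hx⟩, hz⟩
  · rfl
  · exact absurd rfl hx
  · rfl

/-- **One name against several** -/
theorem wl_names {b : ℚ} (hb : 1 < b) (y : ℝ) {m : ℕ} (a : Fin (m + 1) → Option {x : ℚ // 0 < x})
    (ha : Function.Injective a) (D : ℕ) :
    ∃ (κ : ℕ) (c : ℝ), 0 < c ∧ ∀ (P : MvPolynomial (Fin 2) ℤ) (Q : MvPolynomial (Fin (m + 1)) ℤ), P ≠ 0 → Q ≠ 0 →
      P.totalDegree ≤ D → Q.totalDegree ≤ D → ∀ H : ℝ, 1 ≤ H →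
      (∀ s, |((MvPolynomial.coeff s P : ℤ) : ℝ)| ≤ H) → (∀ s, |((MvPolynomial.coeff s Q : ℤ) : ℝ)| ≤ H) →
      c ≤ H ^ κ * max |MvPolynomial.aeval ![Real.exp 1, y - offW b (a 0)] P|
        |MvPolynomial.aeval (Fin.cons (Real.exp 1) (fun j => y - offW b (a j.succ)) : Fin (m + 1) → ℝ) Q| := by
  classical
  have hb0 : 0 < b := one_pos.trans hb
  have hAI := names_indep (Real.exp 1) none (offW b) rfl (offW_indep hb) a ha
  set θ : Fin m → ℝ := fun j => offW b (a 0) - offW b (a j.succ) with hθ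
  let X : Fin (m + 1) → ℚ := fun j => (a j).elim 1 (fun x => x.1)
  let S : Finset (ℚ × ℚ) := (Finset.univ.image fun j => ((0 : ℚ), X j)) ∪
    (Finset.univ.image fun j => ((0 : ℚ), b * X j))
  have hXpos : ∀ j, 0 < X j := by
    intro j
    show 0 < (a j).elim 1 (fun x => x.1)
    cases a j with
    | none => exact one_pos
    | some x => exact x.2
  have hS : ∀ p ∈ S, 0 ≤ p.1 ∧ p.1 < 1 ∧ 0 < p.2 := by
    intro p hp
    rcases Finset.mem_union.1 hp with hp | hp
    · obtain ⟨j, _, rfl⟩ := Finset.mem_image.1 hp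
      exact ⟨le_rfl, one_pos, hXpos j⟩
    · obtain ⟨j, _, rfl⟩ := Finset.mem_image.1 hp
      exact ⟨le_rfl, one_pos, mul_pos hb0 (hXpos j)⟩
  have hM : MeasI (Fin.cons (Real.exp 1) θ : Fin (m + 1) → ℝ) := by
    refine meas_gen 1 S hS _ hAI fun B g hg heg hexp hE j => ?_
    have hoff : ∀ j, offW b (a j) ∈ B := by
      intro j
      have hmem : ((0 : ℚ), X j) ∈ S := Finset.mem_union_left _ (Finset.mem_image_of_mem _ (Finset.mem_univ j))
      have hmem' : ((0 : ℚ), b * X j) ∈ S :=
        Finset.mem_union_right _ (Finset.mem_image_of_mem _ (Finset.mem_univ j))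
      have h1 := hE _ hmem 1 le_rfl le_rfl
      have h2 := hE _ hmem' 1 le_rfl le_rfl
      have h3 : EE 1 ((b : ℝ) * (X j : ℝ)) - EE 1 (X j : ℝ) ∈ B := by
        rw [← EA_zero_eq, ← EA_zero_eq]
        refine B.sub_mem ?_ (by simpa using h1)
        simpa using h2
      have h4 : offW b (a j) = 0 ∨ offW b (a j) = EE 1 ((b : ℝ) * (X j : ℝ)) - EE 1 (X j : ℝ) := by
        show (a j).elim 0 (fun x => EE 1 ((b : ℝ) * ((x : ℚ) : ℝ)) - EE 1 ((x : ℚ) : ℝ)) = 0 ∨
          (a j).elim 0 (fun x => EE 1 ((b : ℝ) * ((x : ℚ) : ℝ)) - EE 1 ((x : ℚ) : ℝ)) =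
          EE 1 ((b : ℝ) * (((a j).elim 1 (fun x => x.1) : ℚ) : ℝ)) - EE 1 (((a j).elim 1 (fun x => x.1) : ℚ) : ℝ)
        cases a j with
        | none => exact Or.inl rfl
        | some x => exact Or.inr rfl
      rcases h4 with h4 | h4
      · rw [h4]; exact B.zero_mem
      · rw [h4]; exact h3
    refine Fin.cases ?_ (fun i => ?_) j
    · simpa using heg
    · simp only [Fin.cons_succ, hθ]
      exact B.mul_mem (B.sub_mem (hoff 0) (hoff i.succ)) hg
  obtain ⟨κ, c, hc, h⟩ := names_e (Real.exp 1) θ hM hAI (y - offW b (a 0)) D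
  refine ⟨κ, c, hc, fun P Q hP hQ hPD hQD H hH hPH hQH => ?_⟩
  have h1 := h P Q hP hQ hPD hQD H hH hPH hQH
  have h2 : (fun j => y - offW b (a 0) + θ j) = fun j : Fin m => y - offW b (a j.succ) := by
    funext j
    rw [hθ]
    ring
  rw [h2] at h1
  exact h1

end Pool.Agent.Helper116_WL
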