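import Mathlib
import Pool.Agent.Helper116_EM.PiE

set_option autoImplicit false

/-!
# One name against several, with `e` in both polynomials (helper116)
-/

open Finset

namespace Pool.Agent.Helper116_WL

open Pool.Agent.R352.T (EA EA_alg_Q PI)
open Pool.Agent.R352.E (clF subset_clF indep_of_span of_pow rat_mem)
open Pool.Agent.Helper116_EM (MeasI names_indep meas_gen' names_e TT TT_eq)

theorem names_main_e {A : Type*} (o : A) (c : A → ℝ) (hco : c o = 0)
    (hAI : AlgebraicIndependent ℚ (fun z : Option {b : A // b ≠ o} => z.elim (Real.exp 1) (fun b => c b)))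
    (y : ℝ) (J : ℕ) {m : ℕ} (a : Fin (m + 1) → A) (ha : Function.Injective a) (S : Finset (ℚ × ℚ))
    (hS : ∀ p ∈ S, 0 ≤ p.1 ∧ p.1 < 1 ∧ 0 < p.2) (N : ℕ) (hN : N ≠ 0)
    (h : ∀ (B : Subalgebra ℤ ℝ) (g : ℝ), g ∈ B → Real.exp 1 * g ∈ B → (∀ p ∈ S, Real.exp (-(p.2 : ℝ)) ∈ B) →
      (∀ p ∈ S, ∀ l, 1 ≤ l → l ≤ J → EA p.1 l p.2 ∈ B) → ∀ j, c (a j) * (N * g) ∈ B) (D : ℕ) :
    ∃ (κ : ℕ) (C : ℝ), 0 < C ∧ ∀ (P : MvPolynomial (Fin 2) ℤ) (Q : MvPolynomial (Fin (m + 1)) ℤ), P ≠ 0 → Q ≠ 0 →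
      P.totalDegree ≤ D → Q.totalDegree ≤ D → ∀ H : ℝ, 1 ≤ H →
      (∀ s, |((MvPolynomial.coeff s P : ℤ) : ℝ)| ≤ H) → (∀ s, |((MvPolynomial.coeff s Q : ℤ) : ℝ)| ≤ H) →
      C ≤ H ^ κ * max |MvPolynomial.aeval ![Real.exp 1, y - c (a 0)] P|
        |MvPolynomial.aeval (Fin.cons (Real.exp 1) (fun j => y - c (a j.succ)) : Fin (m + 1) → ℝ) Q| := by
  have hAI' := names_indep (Real.exp 1) o c hco hAI a ha
  have hM : MeasI (Fin.cons (Real.exp 1) (fun j : Fin m => c (a 0) - c (a j.succ)) : Fin (m + 1) → ℝ) := by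
    refine meas_gen' J S hS N hN _ hAI' fun B g hg heg hexp hE j => ?_
    have h1 := h B g hg heg hexp hE
    refine Fin.cases ?_ (fun i => ?_) j
    · simp only [Fin.cons_zero]
      have h2 : Real.exp 1 * ((N : ℝ) * g) = N * (Real.exp 1 * g) := by ring
      rw [h2]
      exact B.mul_mem (natCast_mem _ N) heg
    · simp only [Fin.cons_succ]
      rw [sub_mul]
      exact B.sub_mem (h1 0) (h1 i.succ)
  obtain ⟨κ, C, hC, hm⟩ := names_e (Real.exp 1) _ hM hAI' (y - c (a 0)) D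
  refine ⟨κ, C, hC, fun P Q hP hQ hPD hQD H hH hPH hQH => ?_⟩
  have h1 := hm P Q hP hQ hPD hQD H hH hPH hQH
  have h2 : (fun j : Fin m => y - c (a 0) + (c (a 0) - c (a j.succ))) = fun j : Fin m => y - c (a j.succ) := by
    funext j
    ring
  rw [h2] at h1
  exact h1

/-- names with a rational parameter -/
lemma indep_pack (c : ℚ → ℝ) (h : ∀ F : Finset ℚ, (∀ x ∈ F, 0 < x) →
      AlgebraicIndependent ℚ (fun o : Option F => o.elim (Real.exp 1) (fun x => c x))) :
    AlgebraicIndependent ℚ (fun z : Option {b : Option {x : ℚ // 0 < x} // b ≠ none} => z.elim (Real.exp 1)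
      (fun b => (b : Option {x : ℚ // 0 < x}).elim 0 (fun x => c x))) := by
  classical
  refine algebraicIndependent_of_finite_type fun t ht => ?_
  let F : Finset ℚ := ht.toFinset.biUnion fun z => z.elim ∅ (fun b => b.1.elim ∅ (fun x => {x.1}))
  have hF : ∀ (x : {x : ℚ // 0 < x}) (hx : some x ≠ none), some ⟨some x, hx⟩ ∈ t → x.1 ∈ F := by
    intro x hx h
    exact Finset.mem_biUnion.2 ⟨_, ht.mem_toFinset.2 h, by simp⟩
  have hFpos : ∀ x ∈ F, 0 < x := by
    intro x hx
    obtain ⟨z, -, h2⟩ := Finset.mem_biUnion.1 hx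
    rcases z with _ | ⟨_ | y, hy⟩
    · simp at h2
    · exact absurd rfl hy
    · simp only [Option.elim, Finset.mem_singleton] at h2
      rw [h2]; exact y.2
  have h := h F hFpos
  let f : t → Option F := fun z =>
    match z with
    | ⟨none, _⟩ => none
    | ⟨some ⟨none, h⟩, _⟩ => absurd rfl h
    | ⟨some ⟨some x, hx⟩, hz⟩ => some ⟨x.1, hF x hx hz⟩
  have hf : Function.Injective f := by
    rintro ⟨z, hz⟩ ⟨z', hz'⟩ h
    rcases z with _ | ⟨_ | x, hx⟩ <;> rcases z' with _ | ⟨_ | x', hx'⟩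
    · rfl
    · exact absurd rfl hx'
    · exact absurd h (by simp [f])
    · exact absurd rfl hx
    · exact absurd rfl hx
    · exact absurd rfl hx
    · exact absurd h (by simp [f])
    · exact absurd rfl hx'
    · simp only [f, Option.some.injEq, Subtype.mk.injEq] at h
      have h2 : x = x' := Subtype.ext h
      subst h2
      rfl
  have h2 := h.comp f hf
  convert h2 using 1
  funext z
  rcases z with ⟨_ | ⟨_ | x, hx⟩, hz⟩
  · rfl
  · exact absurd rfl hx
  · rfl

/-- the offsets for `π` and `T(x)` -/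
noncomputable def cT (x : ℚ) : ℝ := (x : ℝ) * (2 - EA (1 / 2) 1 (x : ℝ)) ^ 2

lemma cT_fin (F : Finset ℚ) (hF : ∀ x ∈ F, 0 < x) :
    AlgebraicIndependent ℚ (fun o : Option F => o.elim (Real.exp 1) (fun x => cT x)) := by
  classical
  let f : Option F → Option PI := Option.map fun x => ⟨(0, 1 / 2, x.1), by norm_num, by norm_num, hF x x.2⟩
  have hf : Function.Injective f := by
    refine Option.map_injective ?_
    intro x x' h
    simp only [Subtype.mk.injEq, Prod.mk.injEq, true_and] at h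
    exact Subtype.ext h
  have hx : AlgebraicIndependent ℚ (fun o : Option F => o.elim (Real.exp 1) (fun x => EA (1 / 2) 1 ((x : ℚ) : ℝ))) := by
    have h2 := EA_alg_Q.comp f hf
    convert h2 using 1
    funext z
    cases z with
    | none => rfl
    | some x => simp [f]
  refine indep_of_span hx (fun o => ?_) le_rfl
  set T := Set.range (fun o : Option F => o.elim (Real.exp 1) (fun x => cT x)) with hT
  cases o with
  | none => exact subset_clF T ⟨none, rfl⟩
  | some x =>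
    have hx0 : (0 : ℝ) < (x : ℚ) := by exact_mod_cast hF x x.2
    have h2 : ((x : ℚ) : ℝ) * (2 - EA (1 / 2) 1 ((x : ℚ) : ℝ)) ^ 2 ∈ clF T := subset_clF T ⟨some x, rfl⟩
    have h3 := (clF T).div_mem h2 (rat_mem T x)
    rw [mul_div_cancel_left₀ _ hx0.ne'] at h3
    have h4 := of_pow two_ne_zero h3
    have h5 : (2 : ℝ) ∈ clF T := by exact_mod_cast rat_mem T 2
    have h6 := (clF T).sub_mem h5 h4
    rw [sub_sub_cancel] at h6
    exact h6

/-- **One name against several** -/
theorem piT_names {m : ℕ} (a : Fin (m + 1) → Option {x : ℚ // 0 < x}) (ha : Function.Injective a) (D : ℕ) :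
    ∃ (κ : ℕ) (c : ℝ), 0 < c ∧ ∀ (P : MvPolynomial (Fin 2) ℤ) (Q : MvPolynomial (Fin (m + 1)) ℤ), P ≠ 0 → Q ≠ 0 →
      P.totalDegree ≤ D → Q.totalDegree ≤ D → ∀ H : ℝ, 1 ≤ H →
      (∀ s, |((MvPolynomial.coeff s P : ℤ) : ℝ)| ≤ H) → (∀ s, |((MvPolynomial.coeff s Q : ℤ) : ℝ)| ≤ H) →
      c ≤ H ^ κ * max |MvPolynomial.aeval ![Real.exp 1, (a 0).elim Real.pi (fun x => TT (x : ℚ))] P|
        |MvPolynomial.aeval (Fin.cons (Real.exp 1) (fun j => (a j.succ).elim Real.pi (fun x => TT (x : ℚ))) :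
          Fin (m + 1) → ℝ) Q| := by
  classical
  let X : Fin (m + 1) → ℚ := fun j => (a j).elim 1 (fun x => x.1)
  let S : Finset (ℚ × ℚ) := Finset.univ.image fun j => ((1 / 2 : ℚ), X j)
  have hXpos : ∀ j, 0 < X j := by
    intro j
    show 0 < (a j).elim 1 (fun x => x.1)
    cases a j with
    | none => exact one_pos
    | some x => exact x.2
  have hS : ∀ p ∈ S, 0 ≤ p.1 ∧ p.1 < 1 ∧ 0 < p.2 := by
    intro p hp
    obtain ⟨j, _, rfl⟩ := Finset.mem_image.1 hp
    exact ⟨by norm_num, by norm_num, hXpos j⟩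
  set N : ℕ := ∏ j, (X j).den with hN
  have hN0 : N ≠ 0 := Finset.prod_ne_zero_iff.2 fun j _ => (X j).den_ne_zero
  obtain ⟨κ, C, hC, hm⟩ := names_main_e (none : Option {x : ℚ // 0 < x})
    (fun b => b.elim 0 (fun x => cT x)) rfl (indep_pack cT cT_fin) Real.pi 1 a ha S hS N hN0
    (fun B g hg heg hexp hE j => by
      have hmem : ((1 / 2 : ℚ), X j) ∈ S := Finset.mem_image_of_mem _ (Finset.mem_univ j)
      have h2 := hE _ hmem 1 le_rfl le_rfl
      have h3 : EA (1 / 2) 1 (X j : ℝ) ∈ B := by simpa using h2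
      have h4 : (a j).elim 0 (fun x => cT x) = 0 ∨ (a j).elim 0 (fun x => cT x) = cT (X j) := by
        show (a j).elim 0 (fun x => cT x) = 0 ∨ (a j).elim 0 (fun x => cT x) = cT ((a j).elim 1 (fun x => x.1))
        cases a j with
        | none => exact Or.inl rfl
        | some x => exact Or.inr rfl
      rcases h4 with h4 | h4
      · rw [h4, zero_mul]; exact B.zero_mem
      · rw [h4, cT]
        obtain ⟨M, hM⟩ : (X j).den ∣ N := Finset.dvd_prod_of_mem (fun j => (X j).den) (Finset.mem_univ j)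
        have hd : ((X j).den : ℝ) ≠ 0 := by exact_mod_cast (X j).den_ne_zero
        have h5 : (X j : ℝ) * N = ((X j).num : ℝ) * M := by
          rw [hM]
          have h6 : (X j : ℝ) = ((X j).num : ℝ) / ((X j).den : ℝ) := by exact_mod_cast (Rat.num_div_den (X j)).symm
          rw [h6]
          push_cast
          field_simp
        have h7 : (X j : ℝ) * (2 - EA (1 / 2) 1 (X j : ℝ)) ^ 2 * (N * g) =
            (((X j).num : ℤ) : ℝ) * (M : ℝ) * ((2 - EA (1 / 2) 1 (X j : ℝ)) ^ 2 * g) := by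
          linear_combination (2 - EA (1 / 2) 1 (X j : ℝ)) ^ 2 * g * h5
        rw [h7]
        refine B.mul_mem (B.mul_mem (intCast_mem _ _) (natCast_mem _ _)) (B.mul_mem (B.pow_mem (B.sub_mem ?_ h3) 2) hg)
        exact_mod_cast natCast_mem B 2) D
  refine ⟨κ, C, hC, fun P Q hP hQ hPD hQD H hH hPH hQH => ?_⟩
  have h1 := hm P Q hP hQ hPD hQD H hH hPH hQH
  have h2 : ∀ j, Real.pi - (a j).elim 0 (fun x => cT x) = (a j).elim Real.pi (fun x => TT (x : ℚ)) := by
    intro j
    cases a j with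
    | none => simp
    | some x =>
      have hx : (0 : ℝ) < (x : ℚ) := by exact_mod_cast x.2
      simp only [Option.elim]
      rw [TT_eq hx, cT]
  simp only [h2] at h1
  exact h1

end Pool.Agent.Helper116_WL
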